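import Pool.Agent.H80.ST4

open Pool.Agent.H80.ST

theorem Pool.Agent.Results.MP_1e7c4a_ag.ConverseFails.result :
    ∃ (A : Finset (Sub ℂ 3)) (H : Sub ℂ 3) (η : MvPolynomial (Fin 3) ℂ)
      (M : Matrix (Fin 3) (Fin 2) ℂ) (hA hH πA πH : Polynomial ℚ),
      IsArr A ∧ H ∈ A ∧ InU2 A η ∧ IsParam M H ∧ IsHilb (stIdeal A η) hA ∧
        IsHilb (stIdeal (resArr A H M) (resPoly η M)) hH ∧ IsPoin A πA ∧
        IsPoin (resArr A H M) πH ∧ hH ∣ hA ∧ ¬ πH ∣ πA :=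
  main
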